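import Pool.Agent.N641.VB.Stm7
import Pool.Agent.N745.VB.NAT
import Pool.Agent.N377.VB.UN3

set_option autoImplicit false

/-!
# Project VB (leaf BMD, helper575 for helper641): the criterion for bi-interpretability
-/

namespace Pool.Agent.N575.VB

open FirstOrder FirstOrder.Language Pool.Agent.N641.VB

/-- finitely many definable sets are defined with a common tuple of parameters, which contains a
given finite family -/
theorem collect {L : FirstOrder.Language.{0, 0}} {U : Type} (S : L.Structure U) {ι : Type}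
    [Finite ι] (α : ι → Type) (s : ∀ i, (α i → U) → Prop) (h : ∀ i, DefP S (s i)) {κ : Type}
    [Finite κ] (c : κ → U) :
    ∃ (n : ℕ) (p : Fin n → U) (φ : ∀ i, L.Formula (Fin n ⊕ α i)) (π : κ → Fin n),
      (∀ i v, @Formula.Realize L U S _ (φ i) (Sum.elim p v) ↔ s i v) ∧ ∀ k, p (π k) = c k := by
  choose n p φ hφ using h
  obtain ⟨N, ⟨e⟩⟩ := Finite.exists_equiv_fin ((Σ i, Fin (n i)) ⊕ κ)
  refine ⟨N, fun k => Sum.elim (fun x : (Σ i, Fin (n i)) => p x.1 x.2) c (e.symm k),
    fun i => (φ i).relabel (Sum.map (fun k => e (Sum.inl ⟨i, k⟩)) id), fun k => e (Sum.inr k),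
    fun i v => ?_, fun k => ?_⟩
  · letI := S
    rw [Formula.realize_relabel, ← hφ i v]
    have e1 : (Sum.elim (fun k => Sum.elim (fun x : (Σ i, Fin (n i)) => p x.1 x.2) c
        (e.symm k)) v ∘ Sum.map (fun k => e (Sum.inl ⟨i, k⟩)) id : Fin (n i) ⊕ α i → U) =
        Sum.elim (p i) v := by
      funext k
      rcases k with k | k
      · simp
      · simp
    rw [e1]
  · simp

/-- transport of definable sets to an isomorphic algebra -/
theorem trans {M B : Type} (le : B → B → Prop) (le' : ℕ → ℕ → Prop) (mu : B → M) (mu' : ℕ → M)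
    (e : B ≃ ℕ) (h1 : ∀ a b, le a b ↔ le' (e a) (e b)) (h2 : ∀ a, mu' (e a) = mu a) {α : Type}
    {s : (α → B) → Prop} (h : DefP (str le mu) s) :
    DefP (str le' mu') (fun v : α → ℕ => s fun i => e.symm (v i)) := by
  obtain ⟨n, p, φ, hφ⟩ := h
  refine ⟨n, fun k => e (p k), φ, fun v => ?_⟩
  change _ ↔ s fun i => e.symm (v i)
  rw [← hφ, Pool.Agent.N377.VB.fo le le' mu mu' e h1 h2 φ]
  have e1 : (fun i => e ((Sum.elim p (fun i => e.symm (v i)) : Fin n ⊕ α → B) i)) =
      Sum.elim (fun k => e (p k)) v := by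
    funext k
    rcases k with k | k
    · rfl
    · exact e.apply_symm_apply _
  rw [e1]

theorem BMD : S_BMD := by
  intro L hL S M _ _ B _ _ _ mu hmu hBi
  obtain ⟨t, r, D, g, E, f, hD, hg, heq, hrel, hfun, hE, hf, hle, hval, hcomp⟩ := hBi
  obtain ⟨bo, mu', e, hAM, hle', hmu', -⟩ := Pool.Agent.N745.VB.NAT M B mu hmu
  have : Finite (Σ l, L.Relations l) :=
    @Finite.of_injective _ (L.Symbols) hL (fun x => Sum.inr x) (fun a b h => Sum.inr.inj h)
  have : Finite (Σ l, L.Functions l) :=
    @Finite.of_injective _ (L.Symbols) hL (fun x => Sum.inl x) (fun a b h => Sum.inl.inj h)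
  -- the side of the structure
  obtain ⟨N, p, Φ, -, hΦ, -⟩ := collect S (ι := Option (Option M))
    (fun i => match i with
      | none => Fin t
      | some none => Fin 2 × Fin t
      | some (some _) => Fin t)
    (fun i => match i with
      | none => fun x => E x
      | some none => fun v => (∀ i, E fun j => v (i, j)) ∧
          f (fun j => v (0, j)) ≤ f (fun j => v (1, j))
      | some (some c) => fun x => E x ∧ mu (f x) = c)
    (fun i => match i with
      | none => hE
      | some none => hle
      | some (some c) => hval c) (κ := Empty) (fun k => k.elim)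
  have hdom : ∀ x : Fin t → ℕ, @Formula.Realize L ℕ S _ (Φ none) (Sum.elim p x) ↔ E x :=
    fun x => hΦ none x
  have hphi : ∀ v : Fin 2 × Fin t → ℕ, @Formula.Realize L ℕ S _ (Φ (some none)) (Sum.elim p v) ↔
      (∀ i, E fun j => v (i, j)) ∧ f (fun j => v (0, j)) ≤ f (fun j => v (1, j)) :=
    fun v => hΦ (some none) v
  have hpsi : ∀ (c : M) (x : Fin t → ℕ),
      @Formula.Realize L ℕ S _ (Φ (some (some c))) (Sum.elim p x) ↔ E x ∧ mu (f x) = c :=
    fun c x => hΦ (some (some c)) x
  -- the representing tuples of the parameters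
  choose X hX1 hX2 using fun j => hg (p j)
  -- the side of the algebra
  obtain ⟨n', q, Ψ, π, hΨ, hπ⟩ := collect (str bo.le mu')
    (ι := Option (Option (Option ((Σ l, L.Relations l) ⊕ (Σ l, L.Functions l)))))
    (fun i => match i with
      | none => Fin r
      | some none => Fin 2 × Fin r
      | some (some none) => (Fin t × Fin r) ⊕ Fin 1
      | some (some (some (Sum.inl R))) => Fin R.1 × Fin r
      | some (some (some (Sum.inr F))) => Fin (F.1 + 1) × Fin r)
    (fun i => match i with
      | none => fun v => D fun i => e.symm (v i)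
      | some none => fun v => (∀ i, D fun j => e.symm (v (i, j))) ∧
          g (fun j => e.symm (v (0, j))) = g (fun j => e.symm (v (1, j)))
      | some (some none) => fun v => (∀ i, D fun j => e.symm (v (Sum.inl (i, j)))) ∧
          (E fun i => g fun j => e.symm (v (Sum.inl (i, j)))) ∧
          f (fun i => g fun j => e.symm (v (Sum.inl (i, j)))) = e.symm (v (Sum.inr 0))
      | some (some (some (Sum.inl R))) => fun v => (∀ i, D fun j => e.symm (v (i, j))) ∧
          @Structure.RelMap L ℕ S R.1 R.2 (fun i => g fun j => e.symm (v (i, j)))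
      | some (some (some (Sum.inr F))) => fun v => (∀ i, D fun j => e.symm (v (i, j))) ∧
          @Structure.funMap L ℕ S F.1 F.2 (fun i => g fun j => e.symm (v (i.castSucc, j))) =
            g (fun j => e.symm (v (Fin.last F.1, j))))
    (fun i => match i with
      | none => trans _ _ _ _ e hle' hmu' hD
      | some none => trans _ _ _ _ e hle' hmu' heq
      | some (some none) => trans _ _ _ _ e hle' hmu' hcomp
      | some (some (some (Sum.inl R))) => trans _ _ _ _ e hle' hmu' (hrel R.1 R.2)
      | some (some (some (Sum.inr F))) => trans _ _ _ _ e hle' hmu' (hfun F.1 F.2))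
    (κ := Fin N × Fin r) (fun x => e (X x.1 x.2))
  have hdel : ∀ v : Fin r → ℕ, @Formula.Realize (LM M) ℕ (str bo.le mu') _ (Ψ none)
      (Sum.elim q v) ↔ D fun i => e.symm (v i) := fun v => hΨ none v
  have heps : ∀ v : Fin 2 × Fin r → ℕ, @Formula.Realize (LM M) ℕ (str bo.le mu') _
      (Ψ (some none)) (Sum.elim q v) ↔ (∀ i, D fun j => e.symm (v (i, j))) ∧
          g (fun j => e.symm (v (0, j))) = g (fun j => e.symm (v (1, j))) :=
    fun v => hΨ (some none) v
  have hkap : ∀ v : (Fin t × Fin r) ⊕ Fin 1 → ℕ, @Formula.Realize (LM M) ℕ (str bo.le mu') _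
      (Ψ (some (some none))) (Sum.elim q v) ↔ (∀ i, D fun j => e.symm (v (Sum.inl (i, j)))) ∧
          (E fun i => g fun j => e.symm (v (Sum.inl (i, j)))) ∧
          f (fun i => g fun j => e.symm (v (Sum.inl (i, j)))) = e.symm (v (Sum.inr 0)) :=
    fun v => hΨ (some (some none)) v
  have hrho : ∀ (l : ℕ) (R : L.Relations l) (v : Fin l × Fin r → ℕ),
      @Formula.Realize (LM M) ℕ (str bo.le mu') _
      (Ψ (some (some (some (Sum.inl ⟨l, R⟩))))) (Sum.elim q v) ↔
        (∀ i, D fun j => e.symm (v (i, j))) ∧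
          @Structure.RelMap L ℕ S l R (fun i => g fun j => e.symm (v (i, j))) :=
    fun l R v => hΨ (some (some (some (Sum.inl ⟨l, R⟩)))) v
  have hgam : ∀ (l : ℕ) (F : L.Functions l) (v : Fin (l + 1) × Fin r → ℕ),
      @Formula.Realize (LM M) ℕ (str bo.le mu') _
      (Ψ (some (some (some (Sum.inr ⟨l, F⟩))))) (Sum.elim q v) ↔
        (∀ i, D fun j => e.symm (v (i, j))) ∧
          @Structure.funMap L ℕ S l F (fun i => g fun j => e.symm (v (i.castSucc, j))) =
            g (fun j => e.symm (v (Fin.last l, j))) :=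
    fun l F v => hΨ (some (some (some (Sum.inr ⟨l, F⟩)))) v
  refine ⟨M, inferInstance, inferInstance, bo, mu',
    { n := N
      n' := n'
      t := t
      r := r
      dom := Φ none
      φ := Φ (some none)
      ψ := fun c => Φ (some (some c))
      δ := Ψ none
      ε := Ψ (some none)
      ρ := fun l R => Ψ (some (some (some (Sum.inl ⟨l, R⟩))))
      γ := fun l F => Ψ (some (some (some (Sum.inr ⟨l, F⟩))))
      κ := Ψ (some (some none))
      π := fun j i => π (j, i) }, q, p, fun x => g fun i => e.symm (x i), fun x => e (f x),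
    hAM, ?_⟩
  refine ⟨?_, ?_, ?_, ?_⟩
  · refine ⟨fun s => ?_, fun v hv => ?_, fun l R v hv => ?_, fun l F v hv => ?_⟩
    · obtain ⟨x, hx1, hx2⟩ := hg s
      have e1 : (fun i => e.symm (e (x i))) = x := by
        funext i
        exact e.symm_apply_apply _
      refine ⟨fun i => e (x i), (hdel _).2 ?_, ?_⟩
      · rw [e1]
        exact hx1
      · change g (fun i => e.symm (e (x i))) = s
        rw [e1]
        exact hx2
    · have hv' : ∀ i, D fun j => e.symm (v (i, j)) := fun i => (hdel _).1 (hv i)
      exact (heps v).trans ⟨fun h => h.2, fun h => ⟨hv', h⟩⟩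
    · have hv' : ∀ i, D fun j => e.symm (v (i, j)) := fun i => (hdel _).1 (hv i)
      exact (hrho l R v).trans ⟨fun h => h.2, fun h => ⟨hv', h⟩⟩
    · have hv' : ∀ i, D fun j => e.symm (v (i, j)) := fun i => (hdel _).1 (hv i)
      exact (hgam l F v).trans ⟨fun h => h.2, fun h => ⟨hv', h⟩⟩
  · refine ⟨fun b => ?_, fun v hv => ?_, fun c x hx => ?_⟩
    · obtain ⟨x, hx1, hx2⟩ := hf (e.symm b)
      refine ⟨x, (hdom x).2 hx1, ?_⟩
      rw [hx2]
      exact e.apply_symm_apply b
    · have hv' : ∀ i, E fun j => v (i, j) := fun i => (hdom _).1 (hv i)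
      exact (hphi v).trans (Iff.trans ⟨fun h => h.2, fun h => ⟨hv', h⟩⟩ (hle' _ _))
    · have hx' : E x := (hdom _).1 hx
      refine (hpsi c x).trans ?_
      rw [hmu']
      exact ⟨fun h => h.2, fun h => ⟨hx', h⟩⟩
  · intro v b hv
    have hv' : ∀ i, D fun j => e.symm (v (i, j)) := fun i => (hdel _).1 (hv i)
    refine (hkap _).trans ?_
    refine Iff.trans ?_ (and_congr_left' (hdom _).symm)
    constructor
    · rintro ⟨-, h2, h3⟩
      refine ⟨h2, ?_⟩
      rw [_root_.Equiv.apply_eq_iff_eq_symm_apply]
      exact h3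
    · rintro ⟨h2, h3⟩
      refine ⟨hv', h2, ?_⟩
      rw [_root_.Equiv.apply_eq_iff_eq_symm_apply] at h3
      exact h3
  · intro j
    have e1 : (fun i => q (π (j, i))) = fun i => e (X j i) := by
      funext i
      exact hπ (j, i)
    have e2 : (fun i => e.symm (e (X j i))) = X j := by
      funext i
      exact e.symm_apply_apply _
    constructor
    · refine (hdel _).2 ?_
      change D fun i => e.symm (q (π (j, i)))
      simp only [hπ, _root_.Equiv.symm_apply_apply]
      exact hX1 j
    · change g (fun i => e.symm (q (π (j, i)))) = p j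
      simp only [hπ, _root_.Equiv.symm_apply_apply]
      exact hX2 j

end Pool.Agent.N575.VB
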